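import Pool.Agent.helper77.BND.SpecB

set_option autoImplicit false

open scoped Topology Matrix
open Filter Finset

namespace Pool.Agent.BND

open Pool.Agent.CZ Pool.Agent.PV

theorem BDM_fl_lt (h : ℕ → ℕ) (a : ℕ) (u : List ℕ) (i : ℕ) (hi : i < h a) : fl h (a :: u) i = (a, i) := by
  simp only [fl, if_pos hi]

theorem BDM_fl_ge (h : ℕ → ℕ) (a : ℕ) (u : List ℕ) (i : ℕ) : fl h (a :: u) (h a + i) = fl h u i := by
  have h1 : ¬ (h a + i < h a) := by omega
  simp only [fl, if_neg h1, Nat.add_sub_cancel_left]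

theorem BDM_fp_lt (h : ℕ → ℕ) (a : ℕ) (u : List ℕ) (i : ℕ) (hi : i < h a) : fp h (a :: u) i = 0 := by
  simp only [fp, if_pos hi]

theorem BDM_fp_ge (h : ℕ → ℕ) (a : ℕ) (u : List ℕ) (i : ℕ) : fp h (a :: u) (h a + i) = fp h u i + 1 := by
  have h1 : ¬ (h a + i < h a) := by omega
  simp only [fp, if_neg h1, Nat.add_sub_cancel_left]

theorem BDM_bd_ll (h : ℕ → ℕ) (a : ℕ) (u : List ℕ) (x : ℕ → ℕ → ℕ → ℂ) (i j : ℕ) (hi : i < h a) (hj : j < h a) :
    bd h (a :: u) x i j = x a i j := by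
  unfold bd
  rw [BDM_fp_lt h a u i hi, BDM_fp_lt h a u j hj, if_pos rfl, BDM_fl_lt h a u i hi, BDM_fl_lt h a u j hj]

theorem BDM_bd_lg (h : ℕ → ℕ) (a : ℕ) (u : List ℕ) (x : ℕ → ℕ → ℕ → ℂ) (i j : ℕ) (hi : i < h a) :
    bd h (a :: u) x i (h a + j) = 0 := by
  unfold bd
  rw [BDM_fp_lt h a u i hi, BDM_fp_ge, if_neg (by omega)]

theorem BDM_bd_gl (h : ℕ → ℕ) (a : ℕ) (u : List ℕ) (x : ℕ → ℕ → ℕ → ℂ) (i j : ℕ) (hj : j < h a) :
    bd h (a :: u) x (h a + i) j = 0 := by
  unfold bd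
  rw [BDM_fp_lt h a u j hj, BDM_fp_ge, if_neg (by omega)]

theorem BDM_bd_gg (h : ℕ → ℕ) (a : ℕ) (u : List ℕ) (x : ℕ → ℕ → ℕ → ℂ) (i j : ℕ) :
    bd h (a :: u) x (h a + i) (h a + j) = bd h u x i j := by
  unfold bd
  rw [BDM_fp_ge, BDM_fp_ge, BDM_fl_ge, BDM_fl_ge]
  simp only [Nat.add_right_cancel_iff]

theorem BDM_sum (h : ℕ → ℕ) (a : ℕ) (u : List ℕ) : ((a :: u).map h).sum = h a + (u.map h).sum := by
  simp

theorem BDM_split (h : ℕ → ℕ) (a S i : ℕ) (hi : i < h a + S) : i < h a ∨ ∃ i', i = h a + i' ∧ i' < S := by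
  by_cases h1 : i < h a
  · exact Or.inl h1
  · exact Or.inr ⟨i - h a, by omega, by omega⟩

theorem BDM_mul (h : ℕ → ℕ) (u : List ℕ) (κ : Type) [Fintype κ] (x y : κ → ℕ → ℕ → ℕ → ℂ) :
    ∀ i j : ℕ, i < (u.map h).sum → j < (u.map h).sum →
    ∑ b : κ, ∑ k ∈ range (u.map h).sum, bd h u (x b) i k * bd h u (y b) k j =
      bd h u (fun v p q => ∑ b : κ, ∑ k ∈ range (h v), x b v p k * y b v k q) i j := by
  induction u with
  | nil => intro i j hi; simp at hi
  | cons a u ih =>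
    intro i j hi hj
    rw [BDM_sum] at hi hj ⊢
    simp only [sum_range_add]
    rcases BDM_split h a _ i hi with hi | ⟨i', rfl, hi'⟩
    · rcases BDM_split h a _ j hj with hj | ⟨j', rfl, hj'⟩
      · rw [BDM_bd_ll h a u _ i j hi hj]
        refine sum_congr rfl fun b _ => ?_
        have h1 : ∑ k ∈ range (u.map h).sum, bd h (a :: u) (x b) i (h a + k) * bd h (a :: u) (y b) (h a + k) j = 0 :=
          sum_eq_zero fun k _ => by rw [BDM_bd_lg h a u _ i k hi, zero_mul]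
        rw [h1, add_zero]
        refine sum_congr rfl fun k hk => ?_
        rw [BDM_bd_ll h a u _ i k hi (mem_range.1 hk), BDM_bd_ll h a u _ k j (mem_range.1 hk) hj]
      · rw [BDM_bd_lg h a u _ i j' hi]
        refine sum_eq_zero fun b _ => ?_
        have h1 : ∑ k ∈ range (u.map h).sum, bd h (a :: u) (x b) i (h a + k) * bd h (a :: u) (y b) (h a + k) (h a + j') = 0 :=
          sum_eq_zero fun k _ => by rw [BDM_bd_lg h a u _ i k hi, zero_mul]
        rw [h1, add_zero]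
        refine sum_eq_zero fun k hk => ?_
        rw [BDM_bd_lg h a u _ k j' (mem_range.1 hk), mul_zero]
    · rcases BDM_split h a _ j hj with hj | ⟨j', rfl, hj'⟩
      · rw [BDM_bd_gl h a u _ i' j hj]
        refine sum_eq_zero fun b _ => ?_
        have h1 : ∑ k ∈ range (u.map h).sum, bd h (a :: u) (x b) (h a + i') (h a + k) * bd h (a :: u) (y b) (h a + k) j = 0 :=
          sum_eq_zero fun k _ => by rw [BDM_bd_gl h a u _ k j hj, mul_zero]
        rw [h1, add_zero]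
        refine sum_eq_zero fun k hk => ?_
        rw [BDM_bd_gl h a u _ i' k (mem_range.1 hk), zero_mul]
      · rw [BDM_bd_gg, ← ih i' j' hi' hj']
        refine sum_congr rfl fun b _ => ?_
        have h1 : ∑ k ∈ range (h a), bd h (a :: u) (x b) (h a + i') k * bd h (a :: u) (y b) k (h a + j') = 0 :=
          sum_eq_zero fun k hk => by rw [BDM_bd_gl h a u _ i' k (mem_range.1 hk), zero_mul]
        rw [h1, zero_add]
        refine sum_congr rfl fun k _ => ?_
        rw [BDM_bd_gg, BDM_bd_gg]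

theorem BDM_trace (h : ℕ → ℕ) (u : List ℕ) (x : ℕ → ℕ → ℕ → ℂ) :
    ∑ i ∈ range (u.map h).sum, bd h u x i i = (u.map fun v => ∑ i ∈ range (h v), x v i i).sum := by
  induction u with
  | nil => simp
  | cons a u ih =>
    rw [BDM_sum, sum_range_add]
    have h1 : ∑ k ∈ range (h a), bd h (a :: u) x k k = ∑ i ∈ range (h a), x a i i :=
      sum_congr rfl fun k hk => BDM_bd_ll h a u x k k (mem_range.1 hk) (mem_range.1 hk)
    have h2 : ∑ k ∈ range (u.map h).sum, bd h (a :: u) x (h a + k) (h a + k) = ∑ k ∈ range (u.map h).sum, bd h u x k k :=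
      sum_congr rfl fun k _ => BDM_bd_gg h a u x k k
    rw [h1, h2, ih, List.map_cons, List.sum_cons]

theorem BDM_unit (h : ℕ → ℕ) (u : List ℕ) : ∀ i j, i < (u.map h).sum → j < (u.map h).sum →
    bd h u (fun _ p q => if p = q then 1 else 0) i j = if i = j then 1 else 0 := by
  induction u with
  | nil => intro i j hi; simp at hi
  | cons a u ih =>
    intro i j hi hj
    rw [BDM_sum] at hi hj
    rcases BDM_split h a _ i hi with hi | ⟨i', rfl, hi'⟩
    · rcases BDM_split h a _ j hj with hj | ⟨j', rfl, hj'⟩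
      · rw [BDM_bd_ll h a u _ i j hi hj]
      · rw [BDM_bd_lg h a u _ i j' hi, if_neg (by omega)]
    · rcases BDM_split h a _ j hj with hj | ⟨j', rfl, hj'⟩
      · rw [BDM_bd_gl h a u _ i' j hj, if_neg (by omega)]
      · rw [BDM_bd_gg, ih i' j' hi' hj']
        simp only [Nat.add_left_cancel_iff]

theorem BDM_same (h : ℕ → ℕ) (u : List ℕ) : ∀ i j, i < (u.map h).sum → j < (u.map h).sum → fp h u i = fp h u j →
    (fl h u i).1 = (fl h u j).1 ∧ (i : ℤ) - j = ((fl h u i).2 : ℤ) - (fl h u j).2 := by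
  induction u with
  | nil => intro i j hi; simp at hi
  | cons a u ih =>
    intro i j hi hj hf
    rw [BDM_sum] at hi hj
    rcases BDM_split h a _ i hi with hi | ⟨i', rfl, hi'⟩
    · rcases BDM_split h a _ j hj with hj | ⟨j', rfl, hj'⟩
      · rw [BDM_fl_lt h a u i hi, BDM_fl_lt h a u j hj]
        exact ⟨rfl, rfl⟩
      · rw [BDM_fp_lt h a u i hi, BDM_fp_ge] at hf
        omega
    · rcases BDM_split h a _ j hj with hj | ⟨j', rfl, hj'⟩
      · rw [BDM_fp_lt h a u j hj, BDM_fp_ge] at hf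
        omega
      · rw [BDM_fp_ge, BDM_fp_ge] at hf
        rw [BDM_fl_ge, BDM_fl_ge]
        obtain ⟨h1, h2⟩ := ih i' j' hi' hj' (by omega)
        refine ⟨h1, ?_⟩
        push_cast
        linarith

theorem BDM_all (hFLV : FLV_stmt) (h : ℕ → ℕ) (u : List ℕ) : ∀ i (q : ℕ), i < (u.map h).sum → q < h (fl h u i).1 →
    i - (fl h u i).2 + q < (u.map h).sum ∧ fp h u (i - (fl h u i).2 + q) = fp h u i ∧
      fl h u (i - (fl h u i).2 + q) = ((fl h u i).1, q) := by
  induction u with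
  | nil => intro i q hi; simp at hi
  | cons a u ih =>
    intro i q hi hq
    rw [BDM_sum] at hi ⊢
    rcases BDM_split h a _ i hi with hi | ⟨i', rfl, hi'⟩
    · rw [BDM_fl_lt h a u i hi] at hq ⊢
      rw [BDM_fp_lt h a u i hi]
      simp only at hq ⊢
      rw [Nat.sub_self, Nat.zero_add]
      exact ⟨by omega, BDM_fp_lt h a u q hq, BDM_fl_lt h a u q hq⟩
    · rw [BDM_fl_ge] at hq ⊢
      obtain ⟨_, P, Q, _, hPQ⟩ := hFLV h u i' hi'
      have h1 : h a + i' - (fl h u i').2 + q = h a + (i' - (fl h u i').2 + q) := by omega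
      obtain ⟨h2, h3, h4⟩ := ih i' q hi' hq
      rw [h1, BDM_fp_ge, BDM_fp_ge, BDM_fl_ge]
      exact ⟨by omega, by rw [h3], h4⟩

theorem BDM (hFLV : FLV_stmt) : BDM_stmt := by
  intro h u
  exact ⟨fun κ _ x y i j hi hj => BDM_mul h u κ x y i j hi hj, fun x => BDM_trace h u x, BDM_unit h u, BDM_same h u,
    BDM_all hFLV h u⟩

end Pool.Agent.BND
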